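import Pool.Agent.H13.LN.Targets

/-!
# Row SYM of the board `lnt_modules`: the symbol of an invariant is a weight system
-/

set_option autoImplicit false

open Finset Pool.Agent.H59.LIN Pool.Agent.H13.LN

namespace Pool.Agent.H63.LNT

theorem sym (hFLA : T_FLA) (hHEX : T_HEX) (hHRO : T_HRO) (hHRK : T_HRK) (hHEM : T_HEM)
    (hHSW : T_HSW) (hHKI : T_HKI) (hHFO : T_HFO) (hWSA : T_WSA) (hWSI : T_WSI) (hWSF : T_WSF)
    (hGAU : T_GAU) (hRUN : T_RUN) (hBLV : T_BLV) : T_SYM := by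
  intro B _ v d hv hft
  obtain ⟨hflat, hext⟩ := hFLA B v d hv hft
  obtain ⟨H, hGH⟩ := hHEX B d _ hflat
  have hHI : HI d H :=
    { rot := fun b L h => hHRO B d _ H hGH b L h
      rk := fun κ L h hκ => hHRK B d _ H hGH κ L h hκ
      emp := fun L h => hHEM B d _ H hGH L h
      sw := fun L h h2 h3 => hHSW B d _ H hGH L h h2 h3
      kink := fun e b L h h2 => hHKI B d _ H hGH e b L h h2
      four := fun e L₁ L₂ L₃ h h2 => hHFO B d _ H hGH e L₁ L₂ L₃ h h2 }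
  obtain ⟨S, s1, s2, s3⟩ := hWSA B d H hHI
  refine ⟨S, ⟨s1, s2, hWSI B d H S hHI s1 s2 s3, hWSF B d H S hHI s1 s2 s3⟩, ?_⟩
  intro n w hw hd
  obtain ⟨hrun, hnd⟩ := hRUN.2.2.2.2.2.2.2.2 n w
  have hK : Knot (flt w) := hRUN.2.2.2.2.1 n _ _ w (flt w) hrun.symm hw
  have hnd' : nd (flt w) = d := hnd.trans hd
  have hVL := (hBLV n (flt w) 0 hK).1
  rw [hnd'] at hVL
  obtain ⟨hG, -, θ, hθ, hgauss⟩ := hGAU n w hw
  rw [hd, hgauss] at hG
  have hG' : Gw d (blk (flt w) 0).flatten := by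
    obtain ⟨h1, h2⟩ := hG
    rw [List.length_map] at h1
    refine ⟨h1, fun a ha => ?_⟩
    have h3 := h2 (θ a) (List.mem_map_of_mem ha)
    rwa [List.count_map_of_injective _ θ hθ.injective] at h3
  rw [hext n w hw hd, hgauss, s1 _ θ hG' hθ.injective.injOn, ← s3 _ hVL]
  exact (hGH.2 n (flt w) 0 hK hnd').symm

end Pool.Agent.H63.LNT
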